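import Mathlib
import Pool.Agent.Helper91.KServer

/-!
# The delayed `k`-server problem is `(2k-1)`-competitive in every metric space

After step `t` a solution of the delayed problem has servers at the last two requests. We feed an
online algorithm for the ordinary `k`-server problem with the last two requests alternately until
it covers both of them, and we relabel its servers such that the frozen server does not move.
-/

open Finset Function

namespace Pool.Agent.Results.MP_ff2559_lc.DelayedServerCompetitive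

universe u

/-- A state of the delayed `k`-server problem: the positions of the servers and the frozen
server. -/
structure State (M : Type u) (k : ℕ) where
  /-- the positions of the servers -/
  pos : Fin k → M
  /-- the frozen server -/
  frozen : Fin k

section defs

variable {M : Type u} [MetricSpace M] {k : ℕ}

/-- The total distance moved between two states. -/
noncomputable def moveCost (s t : State M k) : ℝ := ∑ i, dist (s.pos i) (t.pos i)

/-- A legal step from `s` to `t` at request `r`: the frozen server of `s` does not move, and the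
frozen server of `t` (the server that serves `r`) stands at `r`. -/
def Legal (s : State M k) (r : M) (t : State M k) : Prop :=
  t.pos s.frozen = s.pos s.frozen ∧ t.pos t.frozen = r

/-- A deterministic online algorithm with initial state `s₀`: it assigns a state to every finite
sequence of requests seen so far, and all its steps are legal. -/
structure OnlineAlg (s₀ : State M k) where
  /-- the state after the given requests -/
  run : List M → State M k
  run_nil : run [] = s₀
  legal : ∀ (h : List M) (r : M), Legal (run h) r (run (h ++ [r]))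

/-- The cost of an online algorithm on a request sequence. -/
noncomputable def OnlineAlg.cost {s₀ : State M k} (A : OnlineAlg s₀) (ρ : List M) : ℝ :=
  ∑ t ∈ range ρ.length, moveCost (A.run (ρ.take t)) (A.run (ρ.take (t + 1)))

/-- `s` is an offline schedule for the request sequence `ρ` from the initial state `s₀`. -/
def IsSchedule (s₀ : State M k) (ρ : List M) (s : ℕ → State M k) : Prop :=
  s 0 = s₀ ∧ ∀ (t : ℕ) (ht : t < ρ.length), Legal (s t) ρ[t] (s (t + 1))

/-- The optimal offline cost of a request sequence. -/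
noncomputable def optCost (s₀ : State M k) (ρ : List M) : ℝ :=
  sInf {c : ℝ | ∃ s : ℕ → State M k, IsSchedule s₀ ρ s ∧
    c = ∑ t ∈ range ρ.length, moveCost (s t) (s (t + 1))}

/-- The online algorithm is `C`-competitive. -/
def Competitive {s₀ : State M k} (A : OnlineAlg s₀) (C : ℝ) : Prop :=
  ∃ K : ℝ, ∀ ρ : List M, A.cost ρ ≤ C * optCost s₀ ρ + K

end defs

open Pool.Agent.Helper91.KServer

section proof

variable {M : Type u} [MetricSpace M] {k : ℕ}

lemma mv_swap_le (X Y : Fin k → M) (a j : Fin k) (h : X a = Y j) :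
    mv X (Y ∘ (Equiv.swap a j)) ≤ mv X Y := by
  classical
  by_cases haj : a = j
  · subst haj
    have : Y ∘ (Equiv.swap a a) = Y := by funext i; simp
    rw [this]
  · unfold mv
    have hj : j ∈ Finset.univ.erase a := by simp [Ne.symm haj]
    rw [← Finset.add_sum_erase _ _ (Finset.mem_univ a), ← Finset.add_sum_erase _ _ hj,
      ← Finset.add_sum_erase Finset.univ (fun i => dist (X i) (Y i)) (Finset.mem_univ a),
      ← Finset.add_sum_erase _ (fun i => dist (X i) (Y i)) hj]
    have e : ∑ x ∈ (Finset.univ.erase a).erase j, dist (X x) ((Y ∘ (Equiv.swap a j)) x) =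
        ∑ x ∈ (Finset.univ.erase a).erase j, dist (X x) (Y x) := by
      refine Finset.sum_congr rfl fun i hi => ?_
      have h1 : i ≠ j := Finset.ne_of_mem_erase hi
      have h2 : i ≠ a := Finset.ne_of_mem_erase (Finset.mem_of_mem_erase hi)
      simp [Equiv.swap_apply_of_ne_of_ne h2 h1]
    rw [e]
    simp only [comp_apply, Equiv.swap_apply_left, Equiv.swap_apply_right]
    rw [h, dist_self]
    have t1 := dist_triangle (X j) (Y j) (Y a)
    linarith

variable [NeZero k]

lemma wfaCost_append (X₀ : Fin k → M) (σ : List M) : ∀ b : List M,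
    wfaCost X₀ σ + mv (wfa X₀ σ) (wfa X₀ (b ++ σ)) ≤ wfaCost X₀ (b ++ σ)
  | [] => by simp [mv_self]
  | x :: b => by
    have ih := wfaCost_append X₀ σ b
    have h := mv_triangle (wfa X₀ σ) (wfa X₀ (b ++ σ)) (wfa X₀ (x :: (b ++ σ)))
    have hc : wfaCost X₀ (x :: (b ++ σ)) =
      wfaCost X₀ (b ++ σ) + mv (wfa X₀ (b ++ σ)) (wfa X₀ (x :: (b ++ σ))) := rfl
    rw [List.cons_append, hc]
    linarith

lemma wfa_sched (X₀ : Fin k → M) : ∀ h : List M, Sched X₀ h (wfa X₀ h) (wfaCost X₀ h)
  | [] => Sched.nil
  | r :: h => Sched.cons (wfa_sched X₀ h) (wfa_serves X₀ r h)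

omit [NeZero k] in
/-- A schedule can serve a block of requests from `{p, r}` in a configuration covering both. -/
lemma sched_block {X₀ : Fin k → M} {σ : List M} {X : Fin k → M} {c : ℝ} (hs : Sched X₀ σ X c)
    {Y : Fin k → M} {p r : M} (hp : ∃ i, Y i = p) (hr : ∃ i, Y i = r) :
    ∀ b : List M, b ≠ [] → (∀ x ∈ b, x = p ∨ x = r) → Sched X₀ (b ++ σ) Y (c + mv X Y)
  | [], h, _ => absurd rfl h
  | [x], _, hb => by
    have hx : ∃ i, Y i = x := by
      rcases hb x (by simp) with rfl | rfl
      · exact hp
      · exact hr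
    exact Sched.cons hs hx
  | x :: y :: b, _, hb => by
    have hx : ∃ i, Y i = x := by
      rcases hb x (by simp) with rfl | rfl
      · exact hp
      · exact hr
    have ih := sched_block hs hp hr (y :: b) (by simp)
      (fun z hz => hb z (List.mem_cons_of_mem _ hz))
    have := Sched.cons ih hx
    rwa [mv_self, add_zero] at this

/-- Alternating requests. -/
def alt (p r : M) : ℕ → List M
  | 0 => []
  | n + 1 => (if n % 2 = 0 then r else p) :: alt p r n

omit [MetricSpace M] in
lemma mem_alt (p r : M) : ∀ n : ℕ, ∀ x ∈ alt p r n, x = p ∨ x = r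
  | 0, x, hx => by simp [alt] at hx
  | n + 1, x, hx => by
    simp only [alt, List.mem_cons] at hx
    rcases hx with rfl | hx
    · by_cases h : n % 2 = 0 <;> simp [h]
    · exact mem_alt p r n x hx

/-- The work function algorithm covers both points of a pair after finitely many alternations. -/
lemma exists_block (hk : 2 ≤ k) (X₀ : Fin k → M) (σ : List M) {p r : M} (hpr : p ≠ r)
    (hp : ∃ i, wfa X₀ σ i = p) : ∃ b : List M, b ≠ [] ∧ (∀ x ∈ b, x = p ∨ x = r) ∧
      (∃ i, wfa X₀ (b ++ σ) i = p) ∧ (∃ i, wfa X₀ (b ++ σ) i = r) := by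
  classical
  by_contra hno
  push Not at hno
  -- the last request
  let q : ℕ → M := fun n => if n % 2 = 0 then p else r
  have hq : ∀ n, (if n % 2 = 0 then r else p) = q (n + 1) := by
    intro n
    simp only [q]
    rcases Nat.mod_two_eq_zero_or_one n with h | h
    · have : (n + 1) % 2 = 1 := by omega
      simp [h, this]
    · have : (n + 1) % 2 = 0 := by omega
      simp [h, this]
  have hqd : ∀ n, dist (q n) (q (n + 1)) = dist p r := by
    intro n
    simp only [q]
    rcases Nat.mod_two_eq_zero_or_one n with h | h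
    · have : (n + 1) % 2 = 1 := by omega
      simp [h, this]
    · have : (n + 1) % 2 = 0 := by omega
      simp [h, this, dist_comm]
  have hcover : ∀ n, ∃ i, wfa X₀ (alt p r n ++ σ) i = q n := by
    intro n
    cases n with
    | zero => simpa [alt, q] using hp
    | succ n =>
      simp only [alt]
      rw [hq n]
      exact wfa_serves X₀ _ _
  -- after at least one request not both points are covered
  have hnot : ∀ n, 1 ≤ n → ∀ i j, ¬ (wfa X₀ (alt p r n ++ σ) i = q n ∧
      wfa X₀ (alt p r n ++ σ) j = q (n + 1)) := by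
    rintro n hn i j ⟨hi, hj⟩
    have hb : alt p r n ≠ [] := by
      cases n with
      | zero => omega
      | succ n => simp [alt]
    simp only [q] at hi hj
    rcases Nat.mod_two_eq_zero_or_one n with h | h
    · have h' : (n + 1) % 2 = 1 := by omega
      simp only [h, h', if_true, one_ne_zero, if_false] at hi hj
      exact hno _ hb (mem_alt p r n) ⟨i, hi⟩ j hj
    · have h' : (n + 1) % 2 = 0 := by omega
      simp only [h, h', if_true, one_ne_zero, if_false] at hi hj
      exact hno _ hb (mem_alt p r n) ⟨j, hj⟩ i hi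
  have hcost : ∀ n : ℕ, (n : ℝ) * dist p r ≤ wfaCost X₀ (alt p r (n + 1) ++ σ) := by
    intro n
    induction n with
    | zero =>
      have h1 := wfaCost_append X₀ [] (alt p r (0 + 1) ++ σ)
      have h2 := mv_nonneg (wfa X₀ []) (wfa X₀ (alt p r (0 + 1) ++ σ))
      have h3 : wfaCost X₀ [] = 0 := rfl
      rw [List.append_nil, h3] at h1
      simp only [Nat.cast_zero, zero_mul]
      linarith
    | succ n ih =>
      set h := alt p r (n + 1) ++ σ with hh
      have hstep : alt p r (n + 1 + 1) ++ σ = q (n + 2) :: h := by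
        simp only [alt, hh, List.cons_append]
        rw [← hq (n + 1)]
      obtain ⟨i, hi⟩ := hcover (n + 1)
      obtain ⟨i', hi'⟩ := hcover (n + 2)
      rw [← hh] at hi
      change wfa X₀ (alt p r (n + 1 + 1) ++ σ) i' = _ at hi'
      have hserve : serve (wf X₀ h) (q (n + 2)) (wfa X₀ h) = i := by
        by_contra hne
        -- then both points are covered after the step
        have e1 : wfa X₀ (q (n + 2) :: h) i = q (n + 1) := by
          change update (wfa X₀ h) (serve (wf X₀ h) (q (n + 2)) (wfa X₀ h)) (q (n + 2)) i = _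
          rw [update_of_ne (Ne.symm hne)]
          exact hi
        have e2 : q (n + 2 + 1) = q (n + 1) := by
          simp only [q]
          have : (n + 2 + 1) % 2 = (n + 1) % 2 := by omega
          rw [this]
        rw [← hstep] at e1
        exact hnot (n + 2) (by omega) i' i ⟨hi', by rw [e2]; exact e1⟩
      have hc : wfaCost X₀ (q (n + 2) :: h) =
          wfaCost X₀ h + mv (wfa X₀ h) (wfa X₀ (q (n + 2) :: h)) := rfl
      have hm : mv (wfa X₀ h) (wfa X₀ (q (n + 2) :: h)) =
          dist (wfa X₀ h (serve (wf X₀ h) (q (n + 2)) (wfa X₀ h))) (q (n + 2)) :=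
        mv_update _ _ _
      rw [hstep, hc, hm, hserve, hi, hqd (n + 1)]
      push_cast
      linarith
  -- but the cost is bounded
  obtain ⟨i, hi⟩ := hp
  have hex : ∃ j : Fin k, j ≠ i := by
    have : Nontrivial (Fin k) := Fin.nontrivial_iff_two_le.2 hk
    exact exists_ne i
  obtain ⟨j, hj⟩ := hex
  set Y := update (wfa X₀ σ) j r with hY
  have hYp : ∃ i, Y i = p := ⟨i, by rw [hY, update_of_ne (Ne.symm hj)]; exact hi⟩
  have hYr : ∃ i, Y i = r := ⟨j, by rw [hY, update_self]⟩
  set B : ℝ := (2 * k - 1) * (wfaCost X₀ σ + mv (wfa X₀ σ) Y) + addConst X₀ with hB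
  have hbound : ∀ n : ℕ, (n : ℝ) * dist p r ≤ B := by
    intro n
    have hs := sched_block (wfa_sched X₀ σ) hYp hYr (alt p r (n + 1)) (by simp [alt])
      (mem_alt p r (n + 1))
    exact (hcost n).trans (wfa_competitive X₀ _ _ _ hs)
  have hd : 0 < dist p r := dist_pos.2 hpr
  obtain ⟨n, hn⟩ := exists_nat_gt (B / dist p r)
  rw [div_lt_iff₀ hd] at hn
  exact absurd (hbound n) (not_le.2 hn)

/-- One phase of the simulation. -/
lemma exists_phase (hk : 2 ≤ k) (X₀ : Fin k → M) (σ : List M) (π : Equiv.Perm (Fin k))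
    (f : Fin k) (r : M) : ∃ (b : List M) (π' : Equiv.Perm (Fin k)) (f' : Fin k),
      b ≠ [] ∧ (∀ x ∈ b, x = wfa X₀ σ (π f) ∨ x = r) ∧
      wfa X₀ (b ++ σ) (π' f) = wfa X₀ σ (π f) ∧ wfa X₀ (b ++ σ) (π' f') = r ∧
      wfaCost X₀ σ + mv (wfa X₀ σ ∘ π) (wfa X₀ (b ++ σ) ∘ π') ≤ wfaCost X₀ (b ++ σ) := by
  classical
  set p := wfa X₀ σ (π f) with hp
  by_cases hpr : p = r
  · have hsame : wfa X₀ ([r] ++ σ) = wfa X₀ σ := by
      change update (wfa X₀ σ) (serve (wf X₀ σ) r (wfa X₀ σ)) r = _
      have h1 := serve_of_mem (wf X₀ σ) (r := r) (X := wfa X₀ σ) ⟨π f, by rw [← hp, hpr]⟩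
      funext i
      by_cases hi : i = serve (wf X₀ σ) r (wfa X₀ σ)
      · rw [hi, update_self, h1]
      · rw [update_of_ne hi]
    refine ⟨[r], π, f, by simp, by simp, ?_, ?_, ?_⟩
    · rw [hsame]
    · rw [hsame, ← hpr]
    · have := wfaCost_append X₀ σ [r]
      rw [hsame] at *
      rw [mv_comp]
      exact this
  · obtain ⟨b, hb, hbm, ⟨j, hj⟩, ⟨i, hi⟩⟩ := exists_block hk X₀ σ hpr ⟨π f, hp.symm⟩
    refine ⟨b, π.trans (Equiv.swap (π f) j), (π.trans (Equiv.swap (π f) j)).symm i, hb, hbm,
      by simp [hj], by simp [hi], ?_⟩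
    have h1 := wfaCost_append X₀ σ b
    have h2 : (wfa X₀ (b ++ σ)) ∘ (π.trans (Equiv.swap (π f) j)) =
        ((wfa X₀ (b ++ σ)) ∘ (Equiv.swap (π f) j)) ∘ π := by funext x; simp
    have h3 := mv_swap_le (wfa X₀ σ) (wfa X₀ (b ++ σ)) (π f) j (by rw [hj])
    rw [h2, mv_comp]
    linarith

/-- The data of the simulation: the requests fed to the work function algorithm, the relabelling
of the servers and the frozen server. -/
structure Sim (M : Type u) (k : ℕ) where
  /-- the requests fed so far, newest first -/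
  σ : List M
  /-- the relabelling of the servers -/
  π : Equiv.Perm (Fin k)
  /-- the frozen server -/
  f : Fin k

/-- The simulation, on histories with the newest request first. -/
noncomputable def sim (hk : 2 ≤ k) (X₀ : Fin k → M) (f₀ : Fin k) : List M → Sim M k
  | [] => ⟨[], Equiv.refl _, f₀⟩
  | r :: h =>
    let d := sim hk X₀ f₀ h
    let b := (exists_phase hk X₀ d.σ d.π d.f r).choose
    let π' := (exists_phase hk X₀ d.σ d.π d.f r).choose_spec.choose
    let f' := (exists_phase hk X₀ d.σ d.π d.f r).choose_spec.choose_spec.choose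
    ⟨b ++ d.σ, π', f'⟩

/-- The state of the algorithm in the simulation. -/
noncomputable def simState (hk : 2 ≤ k) (X₀ : Fin k → M) (f₀ : Fin k) (h : List M) : State M k :=
  ⟨wfa X₀ (sim hk X₀ f₀ h).σ ∘ (sim hk X₀ f₀ h).π, (sim hk X₀ f₀ h).f⟩

lemma sim_step (hk : 2 ≤ k) (X₀ : Fin k → M) (f₀ : Fin k) (r : M) (h : List M) :
    ∃ b : List M, (sim hk X₀ f₀ (r :: h)).σ = b ++ (sim hk X₀ f₀ h).σ ∧ b ≠ [] ∧
      (∀ x ∈ b, x = (simState hk X₀ f₀ h).pos (simState hk X₀ f₀ h).frozen ∨ x = r) ∧
      Legal (simState hk X₀ f₀ h) r (simState hk X₀ f₀ (r :: h)) ∧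
      wfaCost X₀ (sim hk X₀ f₀ h).σ + moveCost (simState hk X₀ f₀ h) (simState hk X₀ f₀ (r :: h))
        ≤ wfaCost X₀ (sim hk X₀ f₀ (r :: h)).σ := by
  set d := sim hk X₀ f₀ h with hd
  obtain ⟨h1, h2, h3, h4, h5⟩ :=
    (exists_phase hk X₀ d.σ d.π d.f r).choose_spec.choose_spec.choose_spec
  exact ⟨_, rfl, h1, h2, ⟨h3, h4⟩, h5⟩

/-- The last request of a history, or the initial position of the frozen server. -/
def lastPt (X₀ : Fin k → M) (f₀ : Fin k) : List M → M
  | [] => X₀ f₀
  | r :: _ => r

lemma simState_frozen (hk : 2 ≤ k) (X₀ : Fin k → M) (f₀ : Fin k) (h : List M) :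
    (simState hk X₀ f₀ h).pos (simState hk X₀ f₀ h).frozen = lastPt X₀ f₀ h := by
  cases h with
  | nil => rfl
  | cons r h =>
    obtain ⟨b, -, -, -, hl, -⟩ := sim_step hk X₀ f₀ r h
    exact hl.2

/-- The simulation as an online algorithm. -/
noncomputable def simAlg (hk : 2 ≤ k) (s₀ : State M k) : OnlineAlg s₀ where
  run h := simState hk s₀.pos s₀.frozen h.reverse
  run_nil := rfl
  legal h r := by
    rw [List.reverse_append, List.reverse_singleton, List.singleton_append]
    obtain ⟨b, -, -, -, hl, -⟩ := sim_step hk s₀.pos s₀.frozen r h.reverse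
    exact hl

lemma simAlg_cost_le (hk : 2 ≤ k) (s₀ : State M k) (ρ : List M) : ∀ n ≤ ρ.length,
    ∑ t ∈ range n, moveCost ((simAlg hk s₀).run (ρ.take t)) ((simAlg hk s₀).run (ρ.take (t + 1)))
      ≤ wfaCost s₀.pos (sim hk s₀.pos s₀.frozen (ρ.take n).reverse).σ := by
  intro n
  induction n with
  | zero =>
    intro _
    simp only [range_zero, sum_empty, List.take_zero, List.reverse_nil]
    exact le_rfl
  | succ n ih =>
    intro hn
    rw [Finset.sum_range_succ]
    have h1 := ih (by omega)
    have h2 : (ρ.take (n + 1)).reverse = ρ[n] :: (ρ.take n).reverse := by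
      rw [List.take_succ_eq_append_getElem (by omega), List.reverse_append,
        List.reverse_singleton, List.singleton_append]
    obtain ⟨b, -, -, -, -, hc⟩ := sim_step hk s₀.pos s₀.frozen ρ[n] (ρ.take n).reverse
    rw [← h2] at hc
    change _ + moveCost (simState hk s₀.pos s₀.frozen (ρ.take n).reverse)
      (simState hk s₀.pos s₀.frozen (ρ.take (n + 1)).reverse) ≤ _
    linarith

lemma sched_of_schedule (hk : 2 ≤ k) (s₀ : State M k) (ρ : List M) (s : ℕ → State M k)
    (hs : IsSchedule s₀ ρ s) : ∀ n ≤ ρ.length,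
    Sched s₀.pos (sim hk s₀.pos s₀.frozen (ρ.take n).reverse).σ (s n).pos
      (∑ t ∈ range n, moveCost (s t) (s (t + 1))) ∧
    (s n).pos (s n).frozen = lastPt s₀.pos s₀.frozen (ρ.take n).reverse := by
  intro n
  induction n with
  | zero =>
    intro _
    rw [hs.1]
    simp only [range_zero, sum_empty, List.take_zero, List.reverse_nil]
    exact ⟨Sched.nil, rfl⟩
  | succ n ih =>
    intro hn
    obtain ⟨ih1, ih2⟩ := ih (by omega)
    have h2 : (ρ.take (n + 1)).reverse = ρ[n] :: (ρ.take n).reverse := by
      rw [List.take_succ_eq_append_getElem (by omega), List.reverse_append,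
        List.reverse_singleton, List.singleton_append]
    obtain ⟨b, hb1, hb2, hb3, -, -⟩ := sim_step hk s₀.pos s₀.frozen ρ[n] (ρ.take n).reverse
    have hl := hs.2 n (by omega)
    rw [simState_frozen] at hb3
    refine ⟨?_, ?_⟩
    · rw [h2, hb1, Finset.sum_range_succ]
      refine sched_block ih1 (p := lastPt s₀.pos s₀.frozen (ρ.take n).reverse) (r := ρ[n])
        ⟨(s n).frozen, ?_⟩ ⟨(s (n + 1)).frozen, hl.2⟩ b hb2 hb3
      rw [hl.1, ih2]
    · rw [h2, hl.2]; rfl

end proof

/-- For every `k ≥ 2`, every metric space `M` and every initial state there is a deterministic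
online algorithm for the delayed `k`-server problem which is `(2k-1)`-competitive. -/
theorem result (k : ℕ) (hk : 2 ≤ k) (M : Type u) [MetricSpace M] (s₀ : State M k) :
    ∃ A : OnlineAlg s₀, Competitive A (2 * k - 1) := by
  have : NeZero k := ⟨by omega⟩
  refine ⟨simAlg hk s₀, addConst s₀.pos, fun ρ => ?_⟩
  have hk' : (2 : ℝ) ≤ k := by exact_mod_cast hk
  have hC : (0 : ℝ) < 2 * k - 1 := by linarith
  have h1 := simAlg_cost_le hk s₀ ρ ρ.length le_rfl
  -- the bound for every schedule
  have h2 : ∀ s : ℕ → State M k, IsSchedule s₀ ρ s →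
      (simAlg hk s₀).cost ρ ≤
        (2 * k - 1) * (∑ t ∈ range ρ.length, moveCost (s t) (s (t + 1))) + addConst s₀.pos := by
    intro s hs
    obtain ⟨h3, -⟩ := sched_of_schedule hk s₀ ρ s hs ρ.length le_rfl
    exact h1.trans (wfa_competitive s₀.pos _ _ _ h3)
  -- there is a schedule, namely the one of the algorithm
  have hne : {c : ℝ | ∃ s : ℕ → State M k, IsSchedule s₀ ρ s ∧
      c = ∑ t ∈ range ρ.length, moveCost (s t) (s (t + 1))}.Nonempty := by
    refine ⟨_, fun t => (simAlg hk s₀).run (ρ.take t), ⟨?_, ?_⟩, rfl⟩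
    · simpa using (simAlg hk s₀).run_nil
    · intro t ht
      have := (simAlg hk s₀).legal (ρ.take t) ρ[t]
      rwa [← List.take_succ_eq_append_getElem ht] at this
  have h3 : ((simAlg hk s₀).cost ρ - addConst s₀.pos) / (2 * k - 1) ≤ optCost s₀ ρ := by
    refine le_csInf hne ?_
    rintro c ⟨s, hs, rfl⟩
    rw [div_le_iff₀ hC]
    have := h2 s hs
    linarith
  rw [div_le_iff₀ hC] at h3
  linarith

end Pool.Agent.Results.MP_ff2559_lc.DelayedServerCompetitive
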